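import Mathlib
import Pool.Agent.FracEM.PM.Main
import Pool.Agent.FracEM.Final

set_option autoImplicit false

namespace Pool.Agent.Results.MP_b96e21_co.VertexDegreeUpperBound

open Finset Filter Topology

/-- every edge of the hypergraph `H` on the vertex set `Fin n` has exactly `k` vertices -/
def IsUniform {n : ℕ} (k : ℕ) (H : Finset (Finset (Fin n))) : Prop := ∀ e ∈ H, e.card = k

/-- degree of the vertex `v`: the number of edges containing `v` -/
def degree {n : ℕ} (H : Finset (Finset (Fin n))) (v : Fin n) : ℕ :=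
  (H.filter (fun e => v ∈ e)).card

/-- `H` has a perfect matching: pairwise disjoint edges covering every vertex -/
def HasPerfectMatching {n : ℕ} (H : Finset (Finset (Fin n))) : Prop :=
  ∃ M : Finset (Finset (Fin n)), M ⊆ H ∧ (∀ e ∈ M, ∀ e' ∈ M, e ≠ e' → Disjoint e e') ∧
    ∀ v : Fin n, ∃ e ∈ M, v ∈ e

/-- `m1 k n`: the smallest `d` such that every `k`-uniform hypergraph on `n` vertices with
minimum vertex degree at least `d` has a perfect matching -/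
noncomputable def m1 (k n : ℕ) : ℕ :=
  sInf {d : ℕ | ∀ H : Finset (Finset (Fin n)), IsUniform k H → (∀ v, d ≤ degree H v) →
    HasPerfectMatching H}

/-- For every `k ≥ 4`: let `y ∈ (0,1)` be the root of `y ^ (k-1) = 1 - y`.  Then
`m1 k n ≤ (y + o(1)) * C(n-1, k-1)` over the multiples `n` of `k`, and `y` is strictly smaller than
the Kühn–Osthus–Townsend constant `(k-1)/k - (k-2)/k^(k-1)`, with `y ≤ 1 - log k / (2k)`. -/
theorem result (k : ℕ) (hk : 4 ≤ k) :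
    ∃ y : ℝ, 0 < y ∧ y < 1 ∧ y ^ (k - 1) = 1 - y ∧
      y < ((k : ℝ) - 1) / k - ((k : ℝ) - 2) / (k : ℝ) ^ (k - 1) ∧
      y ≤ 1 - Real.log k / (2 * k) ∧
      ∀ ε : ℝ, 0 < ε → ∃ n0 : ℕ, ∀ n : ℕ, n0 ≤ n → k ∣ n →
        (∀ H : Finset (Finset (Fin n)), IsUniform k H →
          (∀ v, (y + ε) * (((n - 1).choose (k - 1) : ℕ) : ℝ) ≤ (degree H v : ℝ)) →
          HasPerfectMatching H) ∧
        (m1 k n : ℝ) ≤ (y + ε) * (((n - 1).choose (k - 1) : ℕ) : ℝ) := by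
  obtain ⟨y, hy0, hy1, hy⟩ := Pool.Agent.FracEM.exists_root (k - 1) 1 (by omega) le_rfl
  have hy' : y ^ (k - 1) = 1 - y := by
    rw [hy]; push_cast; ring
  have hk1 : ((k - 1 : ℕ) : ℝ) = (k : ℝ) - 1 := by
    rw [Nat.cast_sub (by omega)]; simp
  have hcmp := Pool.Agent.FracEM.FEM_kot_compare (k - 1) 1 (by omega) le_rfl y hy0 hy1 hy
  have hcmp' : y < ((k : ℝ) - 1) / k - ((k : ℝ) - 2) / (k : ℝ) ^ (k - 1) := by
    rw [hy', hk1] at hcmp
    have e1 : (k : ℝ) - 1 + ((1 : ℕ) : ℝ) = k := by push_cast; ring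
    have e2 : (k : ℝ) - 1 - 1 = (k : ℝ) - 2 := by ring
    rw [e1, e2] at hcmp
    linarith
  refine ⟨y, hy0, hy1, hy', hcmp', Pool.Agent.FracEM.PMT.root_log k hk y hy0 hy1 hy', ?_⟩
  intro ε hε
  have key : ∀ δ : ℝ, 0 < δ → ∃ n0 : ℕ, ∀ n : ℕ, n0 ≤ n → k ∣ n →
      ∀ H : Finset (Finset (Fin n)), IsUniform k H →
        (∀ v, (y + δ) * (((n - 1).choose (k - 1) : ℕ) : ℝ) ≤ (degree H v : ℝ)) →
        HasPerfectMatching H := by
    intro δ hδ
    obtain ⟨n0, hn0⟩ := Pool.Agent.FracEM.PMT.perfect k (by omega) y hy0 hy1 hy' δ hδ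
    refine ⟨n0, fun n hn hkn H hH hdeg => ?_⟩
    obtain ⟨M, hMH, hMm, hMu⟩ := hn0 n hn hkn H hH hdeg
    refine ⟨M, hMH, hMm, fun v => ?_⟩
    have hv : v ∈ M.biUnion id := by rw [hMu]; exact mem_univ v
    rw [mem_biUnion] at hv
    exact hv
  obtain ⟨n1, hn1⟩ := key ε hε
  obtain ⟨n2, hn2⟩ := key (ε / 2) (by linarith)
  -- `C(n-1, k-1)` tends to infinity
  have h3 : Tendsto (fun n : ℕ => (((n - 1).choose (k - 1) : ℕ) : ℝ)) atTop atTop := by
    have h4 : Tendsto (fun n : ℕ => ((n.choose (k - 1) : ℕ) : ℝ)) atTop atTop := by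
      refine (isEquivalent_choose (k - 1)).symm.tendsto_atTop ?_
      refine Tendsto.atTop_div_const (by positivity) ?_
      exact (tendsto_pow_atTop (by omega)).comp tendsto_natCast_atTop_atTop
    exact h4.comp (tendsto_sub_atTop_nat 1)
  obtain ⟨n3, hn3⟩ := eventually_atTop.1 (h3.eventually (eventually_ge_atTop (2 / ε)))
  refine ⟨max n1 (max n2 n3), fun n hn hkn => ⟨hn1 n (le_trans (le_max_left _ _) hn) hkn, ?_⟩⟩
  have hn2' : n2 ≤ n := le_trans (le_trans (le_max_left _ _) (le_max_right _ _)) hn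
  have hn3' : n3 ≤ n := le_trans (le_trans (le_max_right _ _) (le_max_right _ _)) hn
  set C : ℝ := (((n - 1).choose (k - 1) : ℕ) : ℝ) with hC
  have hC0 : 0 ≤ C := Nat.cast_nonneg _
  have hC1 : 2 / ε ≤ C := hn3 n hn3'
  have hC2 : 1 ≤ ε / 2 * C := by
    rw [div_le_iff₀ hε] at hC1
    linarith
  have hmem : ⌈(y + ε / 2) * C⌉₊ ∈ {d : ℕ | ∀ H : Finset (Finset (Fin n)), IsUniform k H →
      (∀ v, d ≤ degree H v) → HasPerfectMatching H} := by
    intro H hH hd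
    refine hn2 n hn2' hkn H hH fun v => ?_
    exact (Nat.le_ceil _).trans (by exact_mod_cast hd v)
  have h5 : m1 k n ≤ ⌈(y + ε / 2) * C⌉₊ := Nat.sInf_le hmem
  have h6 : ((⌈(y + ε / 2) * C⌉₊ : ℕ) : ℝ) < (y + ε / 2) * C + 1 := Nat.ceil_lt_add_one (by positivity)
  have h7 : (m1 k n : ℝ) ≤ ((⌈(y + ε / 2) * C⌉₊ : ℕ) : ℝ) := by exact_mod_cast h5
  linarith

end Pool.Agent.Results.MP_b96e21_co.VertexDegreeUpperBound
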